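import Pool.Agent.Run7.h847.NF.EVB

set_option autoImplicit false

/-!
# Project NF: piece AX1
-/

namespace Run7.h847.NF

open Run7.h41.NF
open Run7.h955 (Ev Thru Ins am cj)
open Filter

variable {n : ℕ}

theorem NN_pos (n : ℕ) : 0 < NN n := by unfold NN; omega

theorem t_AX1 : S_SH → S_AXI → S_AX1 := by
  intro hSH hAX n v s hT
  obtain ⟨-, -, -, -, -, hedge, -⟩ := hSH n
  obtain ⟨hlt, hpr, -⟩ := hAX n
  obtain ⟨m, h1, h2⟩ := ((hT.1 1).and (hT.2 1)).exists
  rw [mul_one] at h1 h2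
  have h2' : (xx n)⁻¹ ^ m ∉ Sh v s := h2
  have hlt' : ∀ r i : ℕ, lt n (r + i * NN n) = lt n r := by
    intro r i
    induction i with
    | zero => simp
    | succ i ih =>
      rw [show r + (i + 1) * NN n = (r + i * NN n) + NN n by ring, hlt, ih]
  set w : ℕ → FG n := fun k => (xx n)⁻¹ ^ m * pr n k with hw
  have hw0 : w 0 ∉ Sh v s := by
    have : w 0 = (xx n)⁻¹ ^ m := by
      show (xx n)⁻¹ ^ m * 1 = _
      rw [mul_one]
    rwa [this]
  have hwN : w (0 + (2 * m) * NN n) ∈ Sh v s := by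
    have : w (0 + (2 * m) * NN n) = xx n ^ m := by
      show (xx n)⁻¹ ^ m * pr n (0 + (2 * m) * NN n) = _
      rw [hpr]
      show (xx n)⁻¹ ^ m * (xx n ^ (2 * m) * 1) = _
      rw [mul_one, two_mul, pow_add, inv_pow]
      group
    rwa [this]
  obtain ⟨k, hk1, hk2⟩ : ∃ k, w k ∉ Sh v s ∧ w (k + 1) ∈ Sh v s := by
    by_contra hcon
    push Not at hcon
    have : ∀ k, w k ∉ Sh v s := by
      intro k
      induction k with
      | zero => exact hw0
      | succ k ih => exact hcon k ih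
    exact this _ hwN
  have hstep : w (k + 1) = w k * el (lt n k) := by
    show (xx n)⁻¹ ^ m * (pr n k * el (lt n k)) = (xx n)⁻¹ ^ m * pr n k * el (lt n k)
    rw [mul_assoc]
  rw [hstep] at hk2
  obtain ⟨h3, h4⟩ := hedge v (w k) s (lt n k) hk1 hk2
  have hk : k % NN n + (k / NN n) * NN n = k := by
    rw [mul_comm]; exact Nat.mod_add_div k (NN n)
  refine ⟨((k / NN n : ℕ) : ℤ) - m, k % NN n, Nat.mod_lt _ (NN_pos n), ?_, ?_⟩
  · rw [← h3]
    show (xx n)⁻¹ ^ m * pr n k = _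
    conv_lhs => rw [← hk, hpr]
    rw [← mul_assoc]
    congr 1
    rw [sub_eq_neg_add, zpow_add, zpow_natCast, zpow_neg, zpow_natCast, inv_pow]
  · rw [← h4]
    conv_lhs => rw [← hk, hlt']

end Run7.h847.NF
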