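import Pool.Agent.Run7.h847.NF.HYP

set_option autoImplicit false

/-!
# Project NF: pieces CEN and FIX
-/

namespace Run7.h847.NF

open Run7.h41.NF
open Run7.h955 (Ev Thru Ins am cj)
open Filter

variable {n : ℕ}

theorem norm_el (s : Lt n) : (el s).norm = 1 := by
  unfold el FreeGroup.norm
  rw [FreeGroup.toWord_mk]
  simp

theorem el_ne_one (s : Lt n) : el s ≠ 1 := by
  intro h
  have := norm_el s
  rw [h, FreeGroup.norm_one] at this
  omega

theorem four_le_NN (n : ℕ) : 4 ≤ NN n := by unfold NN; omega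

theorem norm_xx_pow (hAX : S_AXI) (l : ℕ) : (xx n ^ l).norm = l * NN n := by
  obtain ⟨-, hpr, hnorm, -⟩ := hAX n
  have h1 := hpr 0 l
  have h2 : xx n ^ l = pr n (0 + l * NN n) := by
    rw [h1]
    show _ = xx n ^ l * 1
    rw [mul_one]
  rw [h2, hnorm, zero_add]

theorem norm_xx_zpow (hAX : S_AXI) (l : ℤ) : (xx n ^ l).norm = l.natAbs * NN n := by
  rcases Int.natAbs_eq l with h | h
  · conv_lhs => rw [h, zpow_natCast, norm_xx_pow hAX]
  · conv_lhs => rw [h, zpow_neg, zpow_natCast, FreeGroup.norm_inv_eq, norm_xx_pow hAX]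

theorem ev_of_commute {z g : FG n} (hz : z ≠ 1) {k : ℕ} (hk : 0 < k) (hc : g * z ^ k = z ^ k * g)
    {B : Set (FG n)} (hB : FC (tr g B)) (h : Ev z B) : Ev z (tr g B) := by
  have h1 : Ev (z ^ k) (tr g B) := by
    have h2 : g * z ^ k * g⁻¹ = z ^ k := by rw [hc, mul_inv_cancel_right]
    rw [← h2, ev_conj]
    exact ev_pow hk h
  rcases ev_dich hz hB with h' | h'
  · exact h'
  · exact absurd (ev_pow hk h') (ev_not h1)

theorem cen_step (hSH : S_SH) (hFCB : S_FCB) (hAX : S_AXI) (hAX1 : S_AX1) {g : FG n} {k : ℕ}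
    (hk : 0 < k) (hc : g * xx n ^ k = xx n ^ k * g) :
    ∃ i : ℤ, g = xx n ^ i ∨ g = xx n ^ i * el (0, true) := by
  obtain ⟨hsh, -⟩ := hSH n
  obtain ⟨-, hFc, hFt, -, hFS⟩ := hFCB n
  obtain ⟨-, -, -, -, -, -, -, -, -, -, -, -, -, hne, hthru⟩ := hAX n
  have hT : Thru (xx n) (tr g (H n 0)) := by
    refine ⟨ev_of_commute hne hk hc (hFt g _ (hFS _ _)) (hthru 0).1, ?_⟩
    have h1 : g * (xx n)⁻¹ ^ k = (xx n)⁻¹ ^ k * g := by
      rw [inv_pow]
      have h2 : Commute g (xx n ^ k) := hc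
      exact h2.inv_right.eq
    exact ev_of_commute (inv_ne_one.2 hne) hk h1 (hFt g _ (hFc _ (hFS _ _))) (hthru 0).2
  have h0 : H n 0 = Sh (xx n ^ (0 : ℤ)) (0, true) := rfl
  rw [h0, zpow_zero, hsh, mul_one] at hT
  obtain ⟨i, r, hr, hg, hl⟩ := hAX1 n g (0, true) hT
  have h1 : (0 : Fin (n + 2)) = Fin.ofNat (n + 2) (r / 2) := congrArg Prod.fst hl
  have h2 : (r / 2) % (n + 2) = 0 := (congrArg Fin.val h1).symm
  have h3 : r / 2 < n + 2 := by unfold NN at hr; omega
  rw [Nat.mod_eq_of_lt h3] at h2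
  have h4 : r = 0 ∨ r = 1 := by omega
  refine ⟨i, ?_⟩
  rcases h4 with rfl | rfl
  · left
    rw [hg]
    show xx n ^ i * 1 = _
    rw [mul_one]
  · right
    rw [hg]
    show xx n ^ i * (1 * el (Fin.ofNat (n + 2) (0 / 2), true)) = _
    rw [one_mul]
    rfl

theorem cen_one (hSH : S_SH) (hFCB : S_FCB) (hAX : S_AXI) (hAX1 : S_AX1) {g : FG n} {k : ℕ}
    (hk : 0 < k) (hc : g * xx n ^ k = xx n ^ k * g) : g ∈ Subgroup.zpowers (xx n) := by
  obtain ⟨i, h | h⟩ := cen_step hSH hFCB hAX hAX1 hk hc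
  · exact ⟨i, h.symm⟩
  · exfalso
    set e : FG n := el (0, true) with he
    have hcg : Commute g (xx n ^ k) := hc
    have hce : Commute e (xx n ^ k) := by
      have h1 : e = (xx n ^ i)⁻¹ * g := by rw [h, inv_mul_cancel_left]
      rw [h1]
      refine Commute.mul_left ?_ hcg
      exact (((Commute.refl (xx n)).zpow_left i).inv_left).pow_right k
    have hcee : Commute (e * e) (xx n ^ k) := hce.mul_left hce
    have h4 := four_le_NN n
    have hne : (e * e).norm ≤ 2 := by
      have := FreeGroup.norm_mul_le e e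
      rw [norm_el] at this
      omega
    obtain ⟨l, h1 | h1⟩ := cen_step hSH hFCB hAX hAX1 hk hcee.eq
    · rw [h1, norm_xx_zpow hAX] at hne
      have h5 : l.natAbs = 0 := by
        by_contra h6
        have : 1 * 4 ≤ l.natAbs * NN n := Nat.mul_le_mul (by omega) h4
        omega
      rw [Int.natAbs_eq_zero] at h5
      rw [h5, zpow_zero] at h1
      have h6 : e ^ 2 = 1 := by rw [pow_two]; exact h1
      have h7 : e = 1 := by
        have := (pow_eq_one_iff_left (by norm_num : (2 : ℕ) ≠ 0)).1 h6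
        exact this
      exact el_ne_one _ h7
    · have h5 : e = xx n ^ l := mul_right_cancel h1
      have h6 := norm_el (n := n) (0, true)
      rw [← he, h5, norm_xx_zpow hAX] at h6
      rcases Nat.eq_zero_or_pos l.natAbs with h7 | h7
      · rw [h7] at h6; omega
      · have : 1 * 4 ≤ l.natAbs * NN n := Nat.mul_le_mul h7 h4
        omega

theorem cen_int (hSH : S_SH) (hFCB : S_FCB) (hAX : S_AXI) (hAX1 : S_AX1) {g : FG n} {a : ℤ}
    (ha : a ≠ 0) (hc : g * xx n ^ a = xx n ^ a * g) : g ∈ Subgroup.zpowers (xx n) := by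
  have hcg : Commute g (xx n ^ a) := hc
  have hk : 0 < a.natAbs := Int.natAbs_pos.2 ha
  refine cen_one hSH hFCB hAX hAX1 hk ?_
  rcases Int.natAbs_eq a with h | h
  · rw [h, zpow_natCast] at hcg
    exact hcg.eq
  · rw [h, zpow_neg, zpow_natCast] at hcg
    exact (Commute.inv_right_iff.1 hcg).eq

theorem t_CEN : S_SH → S_FCB → S_AXI → S_AX1 → S_CEN := by
  intro hSH hFCB hAX hAX1 n
  have c1 : ∀ (g : FG n) (a : ℤ), a ≠ 0 → g * xx n ^ a = xx n ^ a * g →
      g ∈ Subgroup.zpowers (xx n) := fun g a ha hc => cen_int hSH hFCB hAX hAX1 ha hc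
  have hne : xx n ≠ 1 := by
    obtain ⟨-, -, -, -, -, -, -, -, -, -, -, -, -, hne, -⟩ := hAX n
    exact hne
  refine ⟨c1, ?_, ?_, ?_⟩
  · intro ψ a e ha hae
    have h1 : ψ (xx n) ∈ Subgroup.zpowers (xx n) := by
      refine c1 _ a ha ?_
      rw [hae]
      exact ((Commute.refl (ψ (xx n))).zpow_right e).eq
    have he : e ≠ 0 := by
      rintro rfl
      rw [zpow_zero] at hae
      have h0 : (fun m : ℤ => xx n ^ m) a = (fun m : ℤ => xx n ^ m) 0 := by simpa using hae
      exact ha (zpow_inj hne h0)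
    have h2 : ψ⁻¹ (xx n) ∈ Subgroup.zpowers (xx n) := by
      refine c1 _ e he ?_
      have h3 : xx n ^ e = (ψ⁻¹ (xx n)) ^ a := by
        have := congrArg (ψ⁻¹ : MulAut (FG n)) hae
        rw [map_zpow, map_zpow, MulAut.inv_apply_self] at this
        exact this.symm
      rw [h3]
      exact ((Commute.refl (ψ⁻¹ (xx n))).zpow_right a).eq
    apply le_antisymm
    · exact Subgroup.zpowers_le.2 h1
    · refine Subgroup.zpowers_le.2 ?_
      obtain ⟨l, hl⟩ := h2
      refine ⟨l, ?_⟩
      have hl' : xx n ^ l = ψ⁻¹ (xx n) := hl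
      have := congrArg ψ hl'
      rw [map_zpow, MulAut.apply_inv_self] at this
      exact this
  · intro g hg
    have h1 : g * xx n * g⁻¹ ∈ Subgroup.zpowers (xx n) := by
      rw [← hg]; exact Subgroup.mem_zpowers _
    have h2 : xx n ∈ Subgroup.zpowers (g * xx n * g⁻¹) := by
      rw [hg]; exact Subgroup.mem_zpowers _
    obtain ⟨k, hk⟩ := h1
    obtain ⟨l, hl⟩ := h2
    have hk' : xx n ^ k = g * xx n * g⁻¹ := hk
    have hl' : (g * xx n * g⁻¹) ^ l = xx n := hl
    rw [← hk', ← zpow_mul] at hl'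
    have hkl : k * l = 1 := by
      have h0 : (fun m : ℤ => xx n ^ m) (k * l) = (fun m : ℤ => xx n ^ m) 1 := by simpa using hl'
      exact zpow_inj hne h0
    rcases Int.eq_one_or_neg_one_of_mul_eq_one hkl with h | h
    · rw [h, zpow_one] at hk'
      refine c1 g 1 one_ne_zero ?_
      rw [zpow_one]
      conv_rhs => rw [hk']
      rw [inv_mul_cancel_right]
    · rw [h, zpow_neg, zpow_one] at hk'
      have h3 : g * xx n = (xx n)⁻¹ * g := by
        rw [hk', inv_mul_cancel_right]
      have h4 : g * (xx n)⁻¹ = xx n * g := by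
        have := congrArg (fun t => xx n * t * (xx n)⁻¹) h3
        simp only [mul_inv_cancel_left] at this
        rw [← this]
        group
      have h5 : (g * g) * xx n ^ (1 : ℤ) = xx n ^ (1 : ℤ) * (g * g) := by
        rw [zpow_one, mul_assoc, h3, ← mul_assoc, h4, mul_assoc]
      obtain ⟨i, hi⟩ := c1 _ 1 one_ne_zero h5
      have hi' : xx n ^ i = g * g := hi
      by_cases hi0 : i = 0
      · rw [hi0, zpow_zero] at hi'
        have h6 : g ^ 2 = 1 := by rw [pow_two]; exact hi'.symm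
        have h7 : g = 1 := (pow_eq_one_iff_left (by norm_num : (2 : ℕ) ≠ 0)).1 h6
        rw [h7]
        exact Subgroup.one_mem _
      · refine c1 g i hi0 ?_
        rw [hi', mul_assoc]
  · intro g hg hg1
    obtain ⟨l, hl⟩ := hg
    have hl' : xx n ^ l = g := hl
    rw [← hl', norm_xx_zpow hAX]
    have h0 : l.natAbs ≠ 0 := by
      intro h
      rw [Int.natAbs_eq_zero] at h
      rw [h, zpow_zero] at hl'
      exact hg1 hl'.symm
    calc NN n = 1 * NN n := (one_mul _).symm
      _ ≤ l.natAbs * NN n := Nat.mul_le_mul_right _ (by omega)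

theorem t_FIX : S_CEN → S_FIX := by
  intro hCEN n s hs hsa
  obtain ⟨c1, c2, c3, c4⟩ := hCEN n
  have hne : xx n ≠ 1 := by
    intro h
    obtain ⟨l, hl⟩ := c1 (el (0, true)) 1 one_ne_zero (by rw [h]; simp)
    have hl' : xx n ^ l = el (0, true) := hl
    rw [h, one_zpow] at hl'
    exact el_ne_one _ hl'.symm
  have key : ∀ a : Lt n, ∃ k : ℤ, s (el a) = el a * xx n ^ k := by
    intro a
    have h1 := hsa a
    rw [map_mul, map_mul, hs, map_inv] at h1
    have h2 : ((el a)⁻¹ * s (el a)) * xx n ^ (1 : ℤ) =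
        xx n ^ (1 : ℤ) * ((el a)⁻¹ * s (el a)) := by
      rw [zpow_one]
      have h3 := congrArg (fun t => (el a)⁻¹ * t * s (el a)) h1
      simp only [mul_assoc, inv_mul_cancel_left, inv_mul_cancel, mul_one] at h3
      rw [mul_assoc]
      exact h3
    obtain ⟨k, hk⟩ := c1 _ 1 one_ne_zero h2
    refine ⟨k, ?_⟩
    have hk' : xx n ^ k = (el a)⁻¹ * s (el a) := hk
    rw [hk', mul_inv_cancel_left]
  have hop : ∀ a : Lt n, el (op a) = (el a)⁻¹ := by
    intro a
    unfold el op
    rw [FreeGroup.inv_mk]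
    rfl
  have hfix : ∀ a : Lt n, s (el a) = el a := by
    intro a
    obtain ⟨k, hk⟩ := key a
    obtain ⟨l, hl⟩ := key (op a)
    rw [hop, map_inv, hk, mul_inv_rev] at hl
    -- `xx^(-k) a⁻¹ = a⁻¹ xx^l`
    by_cases hk0 : k = 0
    · rw [hk, hk0, zpow_zero, mul_one]
    · exfalso
      have h1 : el a * xx n ^ k * (el a)⁻¹ = xx n ^ (-l) := by
        have h2 : (xx n ^ k)⁻¹ = (el a)⁻¹ * xx n ^ l * el a := by
          have := congrArg (fun t => t * el a) hl
          simpa [mul_assoc] using this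
        have h3 : xx n ^ k = (el a)⁻¹ * (xx n ^ l)⁻¹ * el a := by
          have := congrArg (fun t => t⁻¹) h2
          simpa [mul_assoc] using this
        rw [h3, zpow_neg]
        group
      have hl0 : -l ≠ 0 := by
        intro h
        rw [h, zpow_zero] at h1
        have h2 : xx n ^ k = 1 := by
          have := congrArg (fun t => (el a)⁻¹ * t * el a) h1
          simpa [mul_assoc] using this
        have h0 : (fun m : ℤ => xx n ^ m) k = (fun m : ℤ => xx n ^ m) 0 := by simpa using h2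
        exact hk0 (zpow_inj hne h0)
      have h2 : xx n ^ (-l) = (MulAut.conj (el a) (xx n)) ^ k := by
        rw [MulAut.conj_apply, conj_zpow, h1]
      have h3 := c2 (MulAut.conj (el a)) (-l) k hl0 h2
      rw [MulAut.conj_apply] at h3
      have h4 := c3 (el a) h3
      have h5 := c4 (el a) h4 (el_ne_one a)
      rw [norm_el] at h5
      have := four_le_NN n
      omega
  have h6 : (s : FG n ≃* FG n).toMonoidHom = MonoidHom.id (FG n) := by
    ext i
    exact hfix (i, true)
  ext y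
  exact DFunLike.congr_fun h6 y

end Run7.h847.NF
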