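import Pool.Agent.Run7.h41.NF.Iface

set_option autoImplicit false

/-!
# Project NF: piece EVB
-/

namespace Run7.h847.NF

open Run7.h41.NF
open Run7.h955 (Ev Thru Ins am cj)
open Filter

variable {n : ℕ}

theorem zpow_inj {z : FG n} (hz : z ≠ 1) : Function.Injective fun m : ℤ => z ^ m := by
  rw [injective_zpow_iff_not_isOfFinOrder, isOfFinOrder_iff_eq_one]
  exact hz

theorem pow_inj {z : FG n} (hz : z ≠ 1) : Function.Injective fun m : ℕ => z ^ m := by
  intro a b hab
  have h : (fun m : ℤ => z ^ m) (a : ℤ) = (fun m : ℤ => z ^ m) (b : ℤ) := by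
    simpa using hab
  exact_mod_cast zpow_inj hz h

/-- the orbit leaves every finite set -/
theorem ev_notMem {z : FG n} (hz : z ≠ 1) (y : FG n) {F : Set (FG n)} (hF : F.Finite) :
    ∀ᶠ m : ℕ in atTop, z ^ m * y ∉ F := by
  have hinj : Function.Injective fun m : ℕ => z ^ m * y := fun a b hab =>
    pow_inj hz (mul_right_cancel hab)
  have := (hF.preimage (f := fun m : ℕ => z ^ m * y) hinj.injOn).compl_mem_cofinite
  rw [Nat.cofinite_eq_atTop] at this
  exact this

/-- right translation does not change the eventual membership -/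
theorem ev_right {z : FG n} (hz : z ≠ 1) {A : Set (FG n)} (hA : FC A) (y s : FG n) :
    ∀ᶠ m : ℕ in atTop, (z ^ m * y * s ∈ A ↔ z ^ m * y ∈ A) := by
  filter_upwards [ev_notMem hz y (hA s)] with m hm
  simpa using hm

theorem ev_dich {z : FG n} (hz : z ≠ 1) {A : Set (FG n)} (hA : FC A) : Ev z A ∨ Ev z Aᶜ := by
  have h1 := ev_right hz hA 1 z
  obtain ⟨M, hM⟩ := eventually_atTop.1 h1
  have h2 : ∀ m, M ≤ m → (z ^ m ∈ A ↔ z ^ M ∈ A) := by
    intro m hm
    induction m, hm using Nat.le_induction with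
    | base => exact Iff.rfl
    | succ m hm ih =>
      rw [← ih, pow_succ]
      have := hM m hm
      rwa [mul_one] at this
  have h3 : ∀ y : FG n, ∀ᶠ m : ℕ in atTop, (z ^ m * y ∈ A ↔ z ^ M ∈ A) := by
    intro y
    filter_upwards [ev_right hz hA 1 y, eventually_ge_atTop M] with m h4 h5
    rw [mul_one] at h4
    rw [h4, h2 m h5]
  by_cases h : z ^ M ∈ A
  · left
    intro y
    filter_upwards [h3 y] with m hm
    exact hm.2 h
  · right
    intro y
    filter_upwards [h3 y] with m hm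
    exact fun h4 => h (hm.1 h4)

theorem ev_not {z : FG n} {A : Set (FG n)} (h : Ev z A) : ¬ Ev z Aᶜ := by
  intro h'
  obtain ⟨m, h1, h2⟩ := ((h 1).and (h' 1)).exists
  exact h2 h1

theorem ev_sub {z : FG n} {A B : Set (FG n)} (hz : z ≠ 1) (h : Ev z A) (hAB : Sub A B) :
    Ev z B := by
  intro y
  filter_upwards [h y, ev_notMem hz y hAB] with m h1 h2
  by_contra h3
  exact h2 ⟨h1, h3⟩

theorem ev_conj (g z : FG n) (A : Set (FG n)) : Ev (g * z * g⁻¹) (tr g A) ↔ Ev z A := by
  have key : ∀ (y : FG n) (m : ℕ), (g * z * g⁻¹) ^ m * y ∈ tr g A ↔ z ^ m * (g⁻¹ * y) ∈ A := by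
    intro y m
    show g⁻¹ * ((g * z * g⁻¹) ^ m * y) ∈ A ↔ _
    rw [conj_pow]
    have : g⁻¹ * (g * z ^ m * g⁻¹ * y) = z ^ m * (g⁻¹ * y) := by group
    rw [this]
  constructor
  · intro h y
    filter_upwards [h (g * y)] with m hm
    rw [key, inv_mul_cancel_left] at hm
    exact hm
  · intro h y
    filter_upwards [h (g⁻¹ * y)] with m hm
    rw [key]
    exact hm

theorem ev_aut (φ : MulAut (FG n)) (z : FG n) (A : Set (FG n)) :
    Ev (φ z) (im φ A) ↔ Ev z A := by
  have key : ∀ (y : FG n) (m : ℕ), (φ z) ^ m * y ∈ im φ A ↔ z ^ m * (φ⁻¹ y) ∈ A := by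
    intro y m
    show φ⁻¹ ((φ z) ^ m * y) ∈ A ↔ _
    rw [map_mul, map_pow, MulAut.inv_apply_self]
  constructor
  · intro h y
    filter_upwards [h (φ y)] with m hm
    rw [key, MulAut.inv_apply_self] at hm
    exact hm
  · intro h y
    filter_upwards [h (φ⁻¹ y)] with m hm
    rw [key]
    exact hm

theorem ev_pow {z : FG n} {A : Set (FG n)} {k : ℕ} (hk : 0 < k) (h : Ev z A) :
    Ev (z ^ k) A := by
  intro y
  obtain ⟨M, hM⟩ := eventually_atTop.1 (h y)
  filter_upwards [eventually_ge_atTop M] with m hm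
  rw [← pow_mul]
  exact hM _ (hm.trans (Nat.le_mul_of_pos_left m hk))

theorem t_EVB : S_EVB := by
  intro n
  refine ⟨fun z hz => zpow_inj hz, fun z A hz hA => ev_dich hz hA, fun z A h => ev_not h,
    fun z A B hz h hAB => ev_sub hz h hAB, ?_, ev_conj, ev_aut, ?_, ?_, ?_⟩
  · intro z A B hz hA hB hfin
    obtain ⟨m, ⟨h1, h2⟩, h3⟩ := (((hA 1).and (hB 1)).and (ev_notMem hz 1 hfin)).exists
    exact h3 ⟨h1, h2⟩
  · intro z y A hz hA hfr
    rcases ev_dich hz hA with h | h
    · exact h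
    · obtain ⟨m, h1, h2⟩ := (hfr.and_eventually (h y)).exists
      exact absurd h1 h2
  · intro z A k hz hA hk
    refine ⟨fun h => ?_, ev_pow hk⟩
    rcases ev_dich hz hA with h' | h'
    · exact h'
    · exact absurd (ev_pow hk h') (ev_not h)
  · intro z A k _
    have key : ∀ (y : FG n) (m : ℕ), z ^ m * y ∈ tr (z ^ k) A ↔ z ^ m * ((z ^ k)⁻¹ * y) ∈ A := by
      intro y m
      show (z ^ k)⁻¹ * (z ^ m * y) ∈ A ↔ _
      have : (z ^ k)⁻¹ * (z ^ m * y) = z ^ m * ((z ^ k)⁻¹ * y) := by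
        rw [← mul_assoc, ← mul_assoc]
        congr 1
        exact (((Commute.refl z).zpow_left k).inv_left.pow_right m).eq
      rw [this]
    constructor
    · intro h y
      filter_upwards [h (z ^ k * y)] with m hm
      rw [key, inv_mul_cancel_left] at hm
      exact hm
    · intro h y
      filter_upwards [h ((z ^ k)⁻¹ * y)] with m hm
      rw [key]
      exact hm

end Run7.h847.NF
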