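import Pool.Agent.Run7.h847.NF.EVB

set_option autoImplicit false

/-!
# Project NF: piece HYP
-/

namespace Run7.h847.NF

open Run7.h41.NF
open Run7.h955 (Ev Thru Ins am cj)
open Filter

variable {n : ℕ}

theorem ev_of_frequently {z y : FG n} {A : Set (FG n)} (hz : z ≠ 1) (hA : FC A)
    (hfr : ∃ᶠ m : ℕ in atTop, z ^ m * y ∈ A) : Ev z A := by
  rcases ev_dich hz hA with h | h
  · exact h
  · obtain ⟨m, h1, h2⟩ := (hfr.and_eventually (h y)).exists
    exact absurd h1 h2

theorem thru_of_base {z y : FG n} {A : Set (FG n)} (hz : z ≠ 1) (hA : FC A) (hAc : FC Aᶜ)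
    (h1 : ∀ m : ℕ, 0 < m → z ^ m * y ∈ A) (h2 : ∀ m : ℕ, 0 < m → z⁻¹ ^ m * y ∉ A) : Thru z A := by
  refine ⟨ev_of_frequently (y := y) hz hA ?_, ev_of_frequently (y := y) (inv_ne_one.2 hz) hAc ?_⟩
  · refine Eventually.frequently ?_
    filter_upwards [eventually_gt_atTop 0] with m hm
    exact h1 m hm
  · refine Eventually.frequently ?_
    filter_upwards [eventually_gt_atTop 0] with m hm
    exact h2 m hm

theorem t_HYP : S_FCB → S_HYP := by
  intro hF n z hz
  obtain ⟨-, hFc, -, -, hFS⟩ := hF n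
  set L := z.toWord with hL
  have hLr : FreeGroup.IsReduced L := FreeGroup.isReduced_toWord
  set C := FreeGroup.reduceCyclically L with hC
  set D := FreeGroup.reduceCyclically.conjugator L with hD
  have hCc : FreeGroup.IsCyclicallyReduced C :=
    FreeGroup.reduceCyclically.isCyclicallyReduced hLr
  have hdec : z = FreeGroup.mk D * FreeGroup.mk C * (FreeGroup.mk D)⁻¹ := by
    rw [FreeGroup.inv_mk, FreeGroup.mul_mk, FreeGroup.mul_mk,
      FreeGroup.reduceCyclically.conj_conjugator_reduceCyclically, hL, FreeGroup.mk_toWord]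
  set g := FreeGroup.mk D with hg
  set w := FreeGroup.mk C with hw
  have hCne : C ≠ [] := by
    intro h
    apply hz
    rw [hdec, hw, h, ← FreeGroup.one_eq_mk, mul_one, mul_inv_cancel]
  obtain ⟨s, T, hsT⟩ := List.exists_cons_of_ne_nil hCne
  have hpow : ∀ m : ℕ, (w ^ m).toWord = (List.replicate m C).flatten := by
    intro m
    rw [hw, FreeGroup.pow_mk, FreeGroup.toWord_mk]
    exact (hCc.flatten_replicate m).isReduced.reduce_eq
  have hhead : ∀ m : ℕ, 0 < m → (w ^ m).toWord.head? = some s := by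
    intro m hm
    rw [hpow, List.head?_flatten_replicate hm.ne', hsT]
    rfl
  have hhead' : ∀ m : ℕ, 0 < m → (w⁻¹ ^ m).toWord.head? ≠ some s := by
    intro m hm h
    rw [inv_pow, FreeGroup.toWord_inv, FreeGroup.invRev, List.head?_reverse, List.getLast?_map,
      hpow, List.getLast?_flatten_replicate hm.ne', Option.map_eq_some_iff] at h
    obtain ⟨a, ha, hs⟩ := h
    have h1 := hCc.2 a ha s (by rw [hsT]; rfl)
    have h2 : a.1 = s.1 := by rw [← hs]
    have h3 : (!a.2) = s.2 := by rw [← hs]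
    rw [h1 h2] at h3
    simp at h3
  refine ⟨g, s, thru_of_base (y := g) hz (hFS g s) (hFc _ (hFS g s)) ?_ ?_⟩
  · intro m hm
    show (g⁻¹ * (z ^ m * g)).toWord.head? = some s
    have : g⁻¹ * (z ^ m * g) = w ^ m := by
      rw [hdec, conj_pow]; group
    rw [this]
    exact hhead m hm
  · intro m hm h
    have h' : (g⁻¹ * (z⁻¹ ^ m * g)).toWord.head? = some s := h
    have : g⁻¹ * (z⁻¹ ^ m * g) = w⁻¹ ^ m := by
      rw [hdec, inv_pow, conj_pow, inv_pow]; group
    rw [this] at h'
    exact hhead' m hm h'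

end Run7.h847.NF
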